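import Pool.Agent.Zam.MV

/-! Choice of parameters and the subexponential bound. -/

namespace Zam

open Finset

lemma exists_params (n : ℕ) (hn : 2 ≤ n) : ∃ k q e f s : ℕ, k + 1 = 2 ^ e * 3 ^ f ∧
    2 ^ n ≤ q ^ k ∧
    12 * ((k * q).choose (2 ^ e - 1) + (k * q).choose (3 ^ f - 1) + 2) ≤ 48 * (n ^ 6) ^ (3 * s) ∧
    (s : ℝ) ≤ 5 * Real.sqrt (n / Real.log n) := by
  set b := Nat.log 2 n with hb
  have hb1 : 1 ≤ b := by
    rw [hb]; exact Nat.log_pos (by norm_num) hn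
  have hbn : b ≤ n := Nat.log_le_self 2 n
  set s := Nat.sqrt (n / b + 1) + 1 with hs
  have hs1 : n / b + 2 ≤ s * s := by
    have := Nat.lt_succ_sqrt (n / b + 1)
    rw [Nat.succ_eq_add_one, ← hs] at this
    omega
  have hs2 : (s - 1) * (s - 1) ≤ n / b + 1 := by
    have := Nat.sqrt_le (n / b + 1)
    rw [hs, Nat.add_sub_cancel]
    exact this
  have hnb : n / b ≤ n := Nat.div_le_self n b
  have hnb1 : 1 ≤ n / b := (Nat.one_le_div_iff hb1).2 hbn
  have hs3 : 2 ≤ s := by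
    by_contra h
    have : s ≤ 1 := by omega
    have : s * s ≤ 1 * 1 := Nat.mul_le_mul this this
    omega
  have hsn : s ≤ n := by
    by_contra h
    have h1 : n ≤ s - 1 := by omega
    have h2 : n * n ≤ (s - 1) * (s - 1) := Nat.mul_le_mul h1 h1
    nlinarith
  -- powers of 2 and 3
  set e := Nat.clog 2 s with he
  set f := Nat.clog 3 s with hf
  have he1 : s ≤ 2 ^ e := Nat.le_pow_clog (by norm_num) s
  have hf1 : s ≤ 3 ^ f := Nat.le_pow_clog (by norm_num) s
  have he2 : 2 ^ e ≤ 2 * s := by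
    have h := Nat.pow_pred_clog_lt_self (b := 2) (by norm_num) (x := s) (by omega)
    have hpos : 0 < e := Nat.clog_pos (by norm_num) hs3
    have : 2 ^ e = 2 * 2 ^ (e - 1) := by
      rw [← pow_succ']; congr 1; omega
    rw [← he] at h
    rw [this]
    exact Nat.mul_le_mul_left 2 h.le
  have hf2 : 3 ^ f ≤ 3 * s := by
    have h := Nat.pow_pred_clog_lt_self (b := 3) (by norm_num) (x := s) (by omega)
    have hpos : 0 < f := Nat.clog_pos (by norm_num) hs3
    have : 3 ^ f = 3 * 3 ^ (f - 1) := by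
      rw [← pow_succ']; congr 1; omega
    rw [← hf] at h
    rw [this]
    exact Nat.mul_le_mul_left 3 h.le
  have hprod1 : s * s ≤ 2 ^ e * 3 ^ f := Nat.mul_le_mul he1 hf1
  have hprod2 : 2 ^ e * 3 ^ f ≤ 6 * (s * s) := by
    calc 2 ^ e * 3 ^ f ≤ (2 * s) * (3 * s) := Nat.mul_le_mul he2 hf2
      _ = 6 * (s * s) := by ring
  set k := 2 ^ e * 3 ^ f - 1 with hk
  have hk1 : k + 1 = 2 ^ e * 3 ^ f := by omega
  have hkb : n ≤ b * k := by
    have h1 : n / b + 1 ≤ k := by omega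
    have h2 : n < b * (n / b + 1) := Nat.lt_mul_div_succ n hb1
    exact h2.le.trans (Nat.mul_le_mul_left b h1)
  have hq : 2 ^ b ≤ n := Nat.pow_log_le_self 2 (by omega)
  have hkq : k * 2 ^ b ≤ n ^ 6 := by
    have h1 : k ≤ 6 * (n * n) := by
      have : s * s ≤ n * n := Nat.mul_le_mul hsn hsn
      omega
    calc k * 2 ^ b ≤ (6 * (n * n)) * n := Nat.mul_le_mul h1 hq
      _ = 6 * n ^ 3 := by ring
      _ ≤ n ^ 3 * n ^ 3 := by
          apply Nat.mul_le_mul_right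
          calc 6 ≤ 2 ^ 3 := by norm_num
            _ ≤ n ^ 3 := Nat.pow_le_pow_left hn 3
      _ = n ^ 6 := by ring
  have hn6 : 1 ≤ n ^ 6 := Nat.one_le_pow _ _ (by omega)
  have hch : ∀ d, d ≤ 3 * s → (k * 2 ^ b).choose d ≤ (n ^ 6) ^ (3 * s) := by
    intro d hd
    calc (k * 2 ^ b).choose d ≤ (k * 2 ^ b) ^ d := Nat.choose_le_pow _ _
      _ ≤ (n ^ 6) ^ d := Nat.pow_le_pow_left hkq d
      _ ≤ (n ^ 6) ^ (3 * s) := Nat.pow_le_pow_right hn6 hd
  refine ⟨k, 2 ^ b, e, f, s, hk1, ?_, ?_, ?_⟩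
  · rw [← pow_mul]
    exact Nat.pow_le_pow_right (by norm_num) hkb
  · have h1 := hch (2 ^ e - 1) (by omega)
    have h2 := hch (3 ^ f - 1) (by omega)
    have h3 : 1 ≤ (n ^ 6) ^ (3 * s) := Nat.one_le_pow _ _ hn6
    omega
  · have hn0 : (0 : ℝ) < n := by exact_mod_cast (by omega : 0 < n)
    have hlog : 0 < Real.log n := Real.log_pos (by exact_mod_cast hn)
    have hb0 : (0 : ℝ) < b := by exact_mod_cast hb1
    have hblog : Real.log n ≤ 2 * b := by
      have h1 : n < 2 ^ (b + 1) := Nat.lt_pow_succ_log_self (by norm_num) n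
      have h2 : Real.log n ≤ Real.log ((2 : ℝ) ^ (b + 1)) := by
        apply Real.log_le_log hn0
        exact_mod_cast h1.le
      rw [Real.log_pow] at h2
      have h3 : Real.log 2 ≤ 1 := by
        have := Real.log_two_lt_d9; linarith
      have h4 : (1 : ℝ) ≤ b := by exact_mod_cast hb1
      push_cast at h2
      nlinarith
    have hx : (n : ℝ) / b ≤ 2 * (n / Real.log n) := by
      rw [div_le_iff₀ hb0, mul_comm 2, mul_assoc, div_mul_eq_mul_div, le_div_iff₀ hlog]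
      nlinarith
    have h5 : ((s : ℝ) - 1) ^ 2 ≤ n / b + 1 := by
      have h6 : ((s - 1 : ℕ) : ℝ) * ((s - 1 : ℕ) : ℝ) ≤ ((n / b : ℕ) : ℝ) + 1 := by
        exact_mod_cast hs2
      rw [Nat.cast_sub (by omega)] at h6
      have h7 : ((n / b : ℕ) : ℝ) ≤ (n : ℝ) / b := Nat.cast_div_le
      push_cast at h6
      nlinarith
    have h8 : (1 : ℝ) ≤ n / b := by
      rw [le_div_iff₀ hb0, one_mul]; exact_mod_cast hbn
    set x : ℝ := (n : ℝ) / Real.log n with hxdef
    have hx0 : 0 < x := div_pos hn0 hlog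
    have hsq : Real.sqrt x ^ 2 = x := Real.sq_sqrt hx0.le
    have hsx : 0 ≤ Real.sqrt x := Real.sqrt_nonneg _
    -- (s-1)^2 ≤ 2 (n/b) ≤ 4 x, so s - 1 ≤ 2 sqrt x
    have h9 : (s : ℝ) - 1 ≤ 2 * Real.sqrt x := by
      apply le_of_sq_le_sq _ (by positivity)
      nlinarith
    have h10 : (1 : ℝ) ≤ 2 * Real.sqrt x := by
      apply le_of_sq_le_sq _ (by positivity)
      nlinarith
    nlinarith

end Zam
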