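import Mathlib

/-! Zero-information unambiguous Arthur-Merlin (ZAM) protocols in two-party communication. -/

namespace Zam

/-- A protocol on inputs `X × Y`: finite nonempty sets `R`, `Q` of private coins and
`m ≥ 1` rectangles `A i ×ˢ B i` inside `(X × R) × (Y × Q)`. -/
structure Protocol (X Y : Type) where
  R : Type
  Q : Type
  fR : Fintype R
  fQ : Fintype Q
  neR : Nonempty R
  neQ : Nonempty Q
  m : ℕ
  m_pos : 0 < m
  A : Fin m → Set (X × R)
  B : Fin m → Set (Y × Q)

attribute [instance] Protocol.fR Protocol.fQ Protocol.neR Protocol.neQ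

variable {X Y : Type}

namespace Protocol

/-- `((x, r), (y, q))` lies in the `i`-th rectangle. -/
def InRect (P : Protocol X Y) (x : X) (y : Y) (i : Fin P.m) (c : P.R × P.Q) : Prop :=
  (x, c.1) ∈ P.A i ∧ (y, c.2) ∈ P.B i

/-- The probability of an event over uniform and independent private coins. -/
noncomputable def prob (P : Protocol X Y) (E : P.R × P.Q → Prop) : ℝ :=
  (Nat.card {c : P.R × P.Q // E c} : ℝ) / (Nat.card (P.R × P.Q) : ℝ)

/-- The acceptance probability on `(x, y)`. -/
noncomputable def accProb (P : Protocol X Y) (x : X) (y : Y) : ℝ :=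
  P.prob (fun c => ∃ i, P.InRect x y i c)

open Classical in
/-- The message `π_{x,y}(r,q)`: an index of a rectangle containing `((x,r),(y,q))`, or `none`
(that is, `⊥`) if there is no such rectangle. -/
noncomputable def msg (P : Protocol X Y) (x : X) (y : Y) (c : P.R × P.Q) : Option (Fin P.m) :=
  if h : ∃ i, P.InRect x y i c then some h.choose else none

/-- The cost `⌈log₂ m⌉`. -/
def cost (P : Protocol X Y) : ℕ := Nat.clog 2 P.m

/-- `P` is a ZAM protocol for `f`. -/
structure IsZAM (P : Protocol X Y) (f : X → Y → Bool) : Prop where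
  /-- perfect completeness -/
  complete : ∀ x y, f x y = true → P.accProb x y = 1
  /-- soundness `1/2` -/
  sound : ∀ x y, f x y = false → P.accProb x y ≤ 1 / 2
  /-- unambiguity -/
  unamb : ∀ x y, f x y = true → ∀ c i j, P.InRect x y i c → P.InRect x y j c → i = j
  /-- zero information: the distribution of the message is the same for all 1-inputs -/
  zeroInfo : ∀ x y x' y', f x y = true → f x' y' = true →
    ∀ o : Option (Fin P.m), P.prob (fun c => P.msg x y c = o) = P.prob (fun c => P.msg x' y' c = o)

end Protocol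

/-- `ZAM(f)`: the least cost of a ZAM protocol for `f`. -/
noncomputable def zam (f : X → Y → Bool) : ℕ :=
  sInf {c : ℕ | ∃ P : Protocol X Y, P.IsZAM f ∧ P.cost = c}

/-- `Z(n)`: the largest `ZAM(f)` over all `f : {0,1}^n × {0,1}^n → {0,1}`. -/
noncomputable def Z (n : ℕ) : ℕ :=
  Finset.univ.sup (fun f : (Fin n → Bool) → (Fin n → Bool) → Bool => zam f)

end Zam
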