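import Pool.Agent.Zam.Bound

/-! Real-valued form of the bound and its consequences for `zam` and `Z`. -/

namespace Zam

open Finset Filter

lemma real_bound (n s : ℕ) (hn : 2 ≤ n) (hs : (s : ℝ) ≤ 5 * Real.sqrt (n / Real.log n)) :
    ((48 * (n ^ 6) ^ (3 * s) : ℕ) : ℝ) ≤ (2 : ℝ) ^ (140 * Real.sqrt (n * Real.log n)) := by
  have hn0 : (0 : ℝ) < n := by exact_mod_cast (by omega : 0 < n)
  have hlog : 0 < Real.log n := Real.log_pos (by exact_mod_cast hn)
  have hsqrt : Real.sqrt (n / Real.log n) * Real.log n = Real.sqrt (n * Real.log n) := by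
    have h1 : Real.log n = Real.sqrt (Real.log n ^ 2) := (Real.sqrt_sq hlog.le).symm
    conv_lhs => rw [h1]
    rw [Real.sqrt_sq hlog.le]
    nth_rewrite 2 [h1]
    rw [← Real.sqrt_mul (by positivity)]
    congr 1
    field_simp
  set y := Real.sqrt (n * Real.log n) with hy
  have hy1 : 1 ≤ y := by
    rw [hy, Real.one_le_sqrt]
    have h2 : (2 : ℝ) ≤ n := by exact_mod_cast hn
    have h3 : Real.log 2 ≤ Real.log n := Real.log_le_log (by norm_num) h2
    have h4 := Real.log_two_gt_d9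
    nlinarith
  have hpos : (0 : ℝ) < ((48 * (n ^ 6) ^ (3 * s) : ℕ) : ℝ) := by
    have : 0 < 48 * (n ^ 6) ^ (3 * s) := by positivity
    exact_mod_cast this
  rw [← Real.log_le_log_iff hpos (by positivity), Real.log_rpow (by norm_num)]
  push_cast
  rw [Real.log_mul (by norm_num) (by positivity), ← pow_mul, Real.log_pow]
  have h48 : Real.log 48 ≤ 4 := by
    have h3 : (48 : ℝ) ≤ Real.exp 1 ^ 4 := by
      have := Real.exp_one_gt_d9
      have h4 : (2.7182818283 : ℝ) ^ 4 ≤ Real.exp 1 ^ 4 := pow_le_pow_left₀ (by norm_num) this.le 4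
      refine le_trans ?_ h4
      norm_num
    have h5 : Real.log 48 ≤ Real.log (Real.exp 1 ^ 4) := Real.log_le_log (by norm_num) h3
    rw [Real.log_pow, Real.log_exp] at h5
    norm_num at h5
    exact h5
  have hmul : (s : ℝ) * Real.log n ≤ 5 * y := by
    calc (s : ℝ) * Real.log n ≤ (5 * Real.sqrt (n / Real.log n)) * Real.log n :=
          mul_le_mul_of_nonneg_right hs hlog.le
      _ = 5 * y := by rw [mul_assoc, hsqrt]
  have h2 := Real.log_two_gt_d9
  push_cast
  nlinarith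

/-- Every `f : X × Y → {0,1}` with `|Y| ≤ 2^n` has a ZAM protocol of cost
`2^{O(√(n log n))}`. -/
theorem exists_zam_bound {X Y : Type} [Fintype Y] (n : ℕ) (hn : 2 ≤ n)
    (hY : Fintype.card Y ≤ 2 ^ n) (f : X → Y → Bool) :
    ∃ P : Protocol X Y, P.IsZAM f ∧
      (P.cost : ℝ) ≤ (2 : ℝ) ^ (140 * Real.sqrt (n * Real.log n)) := by
  classical
  obtain ⟨k, q, e, f', s, hk, hq, hc, hs⟩ := exists_params n hn
  have hcard : Fintype.card Y ≤ Fintype.card (Fin k → Fin q) := by
    simp only [Fintype.card_pi, Fintype.card_fin, Finset.prod_const, Finset.card_univ]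
    exact hY.trans hq
  obtain ⟨φ⟩ := Function.Embedding.nonempty_of_card_le hcard
  obtain ⟨P, hP, hcost⟩ := exists_zam_param k q e f' hk φ φ.injective f
  refine ⟨P, hP, ?_⟩
  refine le_trans ?_ (real_bound n s hn hs)
  exact_mod_cast hcost.trans hc

/-- `zam f` is attained. -/
theorem zam_attained {X Y : Type} [Fintype Y] (f : X → Y → Bool) :
    ∃ P : Protocol X Y, P.IsZAM f ∧ P.cost = zam f := by
  have hne : {c : ℕ | ∃ P : Protocol X Y, P.IsZAM f ∧ P.cost = c}.Nonempty := by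
    obtain ⟨P, hP, -⟩ := exists_zam_bound (X := X) (Fintype.card Y + 2) (by omega)
      (Nat.lt_two_pow_self.le.trans (Nat.pow_le_pow_right (by norm_num) (by omega))) f
    exact ⟨P.cost, P, hP, rfl⟩
  exact Nat.sInf_mem hne

theorem zam_le {X Y : Type} (f : X → Y → Bool) (P : Protocol X Y) (hP : P.IsZAM f) :
    zam f ≤ P.cost :=
  Nat.sInf_le ⟨P, hP, rfl⟩

theorem Z_le (n : ℕ) (hn : 2 ≤ n) :
    (Z n : ℝ) ≤ (2 : ℝ) ^ (140 * Real.sqrt (n * Real.log n)) := by
  classical
  have h : ∀ f : (Fin n → Bool) → (Fin n → Bool) → Bool,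
      zam f ≤ ⌊(2 : ℝ) ^ (140 * Real.sqrt (n * Real.log n))⌋₊ := by
    intro f
    obtain ⟨P, hP, hc⟩ := exists_zam_bound (X := Fin n → Bool) (Y := Fin n → Bool) n hn
      (by simp) f
    exact Nat.le_floor ((Nat.cast_le.2 (zam_le f P hP)).trans hc)
  have h2 : Z n ≤ ⌊(2 : ℝ) ^ (140 * Real.sqrt (n * Real.log n))⌋₊ :=
    Finset.sup_le fun f _ => h f
  exact (Nat.cast_le.2 h2).trans (Nat.floor_le (by positivity))

/-- `Z(n) = 2^{o(n)}`. -/
theorem Z_subexp (ε : ℝ) (hε : 0 < ε) : ∀ᶠ n : ℕ in atTop, (Z n : ℝ) ≤ (2 : ℝ) ^ (ε * n) := by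
  have hlim : Tendsto (fun n : ℕ => Real.log n / n) atTop (nhds 0) := by
    have h := (Real.isLittleO_log_id_atTop.tendsto_div_nhds_zero).comp tendsto_natCast_atTop_atTop
    exact h
  have hδ : 0 < (ε / 140) ^ 2 := by positivity
  filter_upwards [hlim.eventually (gt_mem_nhds hδ), eventually_ge_atTop 2] with n h1 hn
  refine (Z_le n hn).trans ?_
  apply Real.rpow_le_rpow_of_exponent_le (by norm_num)
  have hn0 : (0 : ℝ) < n := by exact_mod_cast (by omega : 0 < n)
  have h2 : Real.log n ≤ (ε / 140) ^ 2 * n := by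
    rw [div_lt_iff₀ hn0] at h1
    exact h1.le
  have h3 : Real.sqrt (n * Real.log n) ≤ ε / 140 * n := by
    rw [Real.sqrt_le_left (by positivity)]
    calc (n : ℝ) * Real.log n ≤ n * ((ε / 140) ^ 2 * n) := mul_le_mul_of_nonneg_left h2 hn0.le
      _ = (ε / 140 * n) ^ 2 := by ring
  calc 140 * Real.sqrt (n * Real.log n) ≤ 140 * (ε / 140 * n) := by linarith
    _ = ε * n := by ring

end Zam
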