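import Pool.Agent.Zam.Defs

/-! A ZAM protocol from a pair of maps that is bijective on 1-inputs and far from surjective on
0-inputs. -/

namespace Zam

variable {X Y : Type} {R S T : Type}

/-- the map `(r₁, r₂) ↦` coins of Alice and Bob. -/
def hit (a : X → R → S) (b : Y → R → T) (x : X) (y : Y) (r : R × R) : (S × S) × (T × T) :=
  ((a x r.1, a x r.2), (b y r.1, b y r.2))

lemma hit_bijective (a : X → R → S) (b : Y → R → T) (x : X) (y : Y)
    (h : Function.Bijective (fun r => (a x r, b y r))) :
    Function.Bijective (hit a b x y) := by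
  constructor
  · rintro ⟨r1, r2⟩ ⟨s1, s2⟩ hrs
    simp only [hit, Prod.mk.injEq] at hrs
    obtain ⟨⟨h1, h2⟩, h3, h4⟩ := hrs
    have e1 : r1 = s1 := h.1 (by simp [h1, h3])
    have e2 : r2 = s2 := h.1 (by simp [h2, h4])
    rw [e1, e2]
  · rintro ⟨⟨c1, c2⟩, ⟨d1, d2⟩⟩
    obtain ⟨r1, h1⟩ := h.2 (c1, d1)
    obtain ⟨r2, h2⟩ := h.2 (c2, d2)
    simp only [Prod.mk.injEq] at h1 h2
    exact ⟨(r1, r2), by simp [hit, h1, h2]⟩

/-- pairs of hit targets -/
def hitEquiv (a : X → R → S) (b : Y → R → T) (x : X) (y : Y) :
    {c : (S × S) × (T × T) // ∃ r, hit a b x y r = c} ≃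
      {c : S × T // ∃ r, (a x r, b y r) = c} × {c : S × T // ∃ r, (a x r, b y r) = c} where
  toFun c := (⟨(c.1.1.1, c.1.2.1), by
      obtain ⟨r, hr⟩ := c.2
      exact ⟨r.1, by rw [← hr]; rfl⟩⟩, ⟨(c.1.1.2, c.1.2.2), by
      obtain ⟨r, hr⟩ := c.2
      exact ⟨r.2, by rw [← hr]; rfl⟩⟩)
  invFun c := ⟨((c.1.1.1, c.2.1.1), (c.1.1.2, c.2.1.2)), by
      obtain ⟨r, hr⟩ := c.1.2
      obtain ⟨s, hs⟩ := c.2.2
      exact ⟨(r, s), by rw [← hr, ← hs]; rfl⟩⟩
  left_inv c := rfl
  right_inv c := rfl

section
variable [Fintype R] [Fintype S] [Fintype T] [Nonempty R] [Nonempty S] [Nonempty T]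

/-- The index type `R × R` is enumerated by `Fin (card (R × R))`; the private coins are a pair of
targets for each player; the rectangle of `(r₁, r₂)` accepts when both targets are hit. -/
noncomputable def pairProtocol (a : X → R → S) (b : Y → R → T) : Protocol X Y where
  R := S × S
  Q := T × T
  fR := inferInstance
  fQ := inferInstance
  neR := inferInstance
  neQ := inferInstance
  m := Fintype.card (R × R)
  m_pos := Fintype.card_pos
  A := fun i => {p | (a p.1 ((Fintype.equivFin (R × R)).symm i).1,
    a p.1 ((Fintype.equivFin (R × R)).symm i).2) = p.2}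
  B := fun i => {p | (b p.1 ((Fintype.equivFin (R × R)).symm i).1,
    b p.1 ((Fintype.equivFin (R × R)).symm i).2) = p.2}

lemma inRect_iff (a : X → R → S) (b : Y → R → T) (x : X) (y : Y)
    (i : Fin (Fintype.card (R × R))) (c : (S × S) × (T × T)) :
    (pairProtocol a b).InRect x y i c ↔
      hit a b x y ((Fintype.equivFin (R × R)).symm i) = c := by
  rcases c with ⟨c1, c2⟩
  unfold hit
  rw [Prod.mk.injEq]
  rfl

lemma exists_inRect_iff (a : X → R → S) (b : Y → R → T) (x : X) (y : Y)
    (c : (S × S) × (T × T)) :
    (∃ i, (pairProtocol a b).InRect x y i c) ↔ ∃ r : R × R, hit a b x y r = c := by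
  constructor
  · rintro ⟨i, hi⟩
    exact ⟨_, (inRect_iff a b x y i c).1 hi⟩
  · rintro ⟨r, hr⟩
    refine ⟨Fintype.equivFin (R × R) r, (inRect_iff a b x y _ c).2 ?_⟩
    simpa using hr

/-- The main criterion. -/
theorem pairProtocol_isZAM (f : X → Y → Bool) (a : X → R → S) (b : Y → R → T)
    (h1 : ∀ x y, f x y = true → Function.Bijective (fun r => (a x r, b y r)))
    (h0 : ∀ x y, f x y = false →
      3 * Nat.card {c : S × T // ∃ r, (a x r, b y r) = c} ≤ 2 * Nat.card (S × T)) :
    (pairProtocol a b).IsZAM f := by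
  have hcard : (Nat.card ((pairProtocol a b).R × (pairProtocol a b).Q)) =
      Nat.card (S × T) ^ 2 := by
    change Nat.card ((S × S) × (T × T)) = _
    simp only [Nat.card_prod]; ring
  have hunamb : ∀ x y, f x y = true → ∀ c i j, (pairProtocol a b).InRect x y i c →
      (pairProtocol a b).InRect x y j c → i = j := by
    intro x y hf c i j hi hj
    have hi' := (inRect_iff a b x y i c).1 hi
    have hj' := (inRect_iff a b x y j c).1 hj
    have := (hit_bijective a b x y (h1 x y hf)).1 (hi'.trans hj'.symm)
    exact (Fintype.equivFin (R × R)).symm.injective this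
  have hacc : ∀ x y, f x y = true → ∀ c, ∃ i, (pairProtocol a b).InRect x y i c := by
    intro x y hf c
    exact (exists_inRect_iff a b x y c).2 ((hit_bijective a b x y (h1 x y hf)).2 c)
  have hpos : (0 : ℝ) < (Nat.card ((pairProtocol a b).R × (pairProtocol a b).Q) : ℝ) := by
    exact_mod_cast Nat.card_pos
  refine ⟨?_, ?_, hunamb, ?_⟩
  · intro x y hf
    unfold Protocol.accProb Protocol.prob
    have : Nat.card {c // ∃ i, (pairProtocol a b).InRect x y i c} =
        Nat.card ((pairProtocol a b).R × (pairProtocol a b).Q) :=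
      Nat.card_congr (Equiv.subtypeUnivEquiv (hacc x y hf))
    rw [this]
    exact div_self hpos.ne'
  · intro x y hf
    unfold Protocol.accProb Protocol.prob
    have e : Nat.card {c // ∃ i, (pairProtocol a b).InRect x y i c} =
        Nat.card {c : S × T // ∃ r, (a x r, b y r) = c} ^ 2 := by
      rw [sq, ← Nat.card_prod, ← Nat.card_congr (hitEquiv a b x y)]
      exact Nat.card_congr (Equiv.subtypeEquivRight (exists_inRect_iff a b x y))
    rw [e, hcard, div_le_iff₀ (by rw [hcard] at hpos; exact hpos)]
    have h := h0 x y hf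
    have h' : (3 : ℝ) * (Nat.card {c : S × T // ∃ r, (a x r, b y r) = c} : ℝ) ≤
        2 * (Nat.card (S × T) : ℝ) := by exact_mod_cast h
    push_cast
    set u : ℝ := (Nat.card {c : S × T // ∃ r, (a x r, b y r) = c} : ℝ)
    set v : ℝ := (Nat.card (S × T) : ℝ)
    have hu : 0 ≤ u := Nat.cast_nonneg _
    nlinarith
  · intro x y x' y' hf hf' o
    have key : ∀ x y, f x y = true → ∀ o : Option (Fin (pairProtocol a b).m),
        Nat.card {c // (pairProtocol a b).msg x y c = o} = if o = none then 0 else 1 := by
      intro x y hf o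
      cases o with
      | none =>
        rw [if_pos rfl, Nat.card_eq_zero]
        left
        refine ⟨fun c => ?_⟩
        have hc := c.2
        unfold Protocol.msg at hc
        rw [dif_pos (hacc x y hf c.1)] at hc
        cases hc
      | some i =>
        rw [if_neg (by simp), Nat.card_eq_one_iff_unique]
        have hmsg : ∀ c, (pairProtocol a b).msg x y c = some i ↔
            hit a b x y ((Fintype.equivFin (R × R)).symm i) = c := by
          intro c
          unfold Protocol.msg
          rw [dif_pos (hacc x y hf c)]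
          constructor
          · intro hc
            have hc' : (hacc x y hf c).choose = i := Option.some.inj hc
            have := (hacc x y hf c).choose_spec
            rw [hc'] at this
            exact (inRect_iff a b x y i c).1 this
          · intro hc
            have hi : (pairProtocol a b).InRect x y i c := (inRect_iff a b x y i c).2 hc
            exact congrArg some (hunamb x y hf c _ _ (hacc x y hf c).choose_spec hi)
        constructor
        · refine ⟨fun c d => Subtype.ext ?_⟩
          exact ((hmsg c.1).1 c.2).symm.trans ((hmsg d.1).1 d.2)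
        · exact ⟨⟨hit a b x y ((Fintype.equivFin (R × R)).symm i), (hmsg _).2 rfl⟩⟩
    unfold Protocol.prob
    rw [key x y hf o, key x' y' hf' o]

lemma pairProtocol_cost (a : X → R → S) (b : Y → R → T) :
    (pairProtocol a b).cost = Nat.clog 2 (Fintype.card R ^ 2) := by
  unfold Protocol.cost pairProtocol
  simp only [Fintype.card_prod, sq]

end

end Zam
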