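import Pool.Agent.Zam.FromPair

/-! The six-point gadget and the pair of maps built from a matching vector family over `ZMod 6`. -/

namespace Zam

open Finset

/-- indicator of `{3, 4}` -/
def P2 (x : ZMod 6) : ZMod 6 := if x = 3 ∨ x = 4 then 1 else 0

/-- `2 ↦ 1`, `4 ↦ 2` -/
def P3 (x : ZMod 6) : ZMod 6 := if x = 2 then 1 else if x = 4 then 2 else 0

/-- the mask coefficient -/
def g (l e : ZMod 6) : ZMod 6 := 3 * P2 (e + 2 * l) + 4 * P3 (e + 3 * l)

/-- the shifts of the six points -/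
def lam : Fin 6 → ZMod 6 := ![0, 0, 3, 3, 2, 5]

/-- the offsets of the six points -/
def tau : Fin 6 → ZMod 6 := ![0, 4, 3, 5, 5, 4]

lemma gadget_inj : ∀ e : ZMod 6, ∀ z z' : Fin 6,
    tau z - g (lam z) e = tau z' - g (lam z') e → z = z' := by decide

lemma gadget_const : ∀ s : ZMod 6, s = 1 ∨ s = 3 ∨ s = 4 → ∀ l e : ZMod 6,
    (1 - s) * g l (e + l * s) = (1 - s) * g 0 e := by decide

lemma gadget_image : ∀ z : Fin 6, tau z ∈ ({0, 3, 4, 5} : Finset (ZMod 6)) := by decide

section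

variable {ι Y : Type} [Fintype ι] [Fintype Y]

/-- the set of Merlin's messages (single run) -/
abbrev Msg (ι : Type) : Type := (ι → ZMod 6) × Fin 6 × ZMod 6 × (ι → ZMod 6)

/-- inner product -/
def ip (u v : ι → ZMod 6) : ZMod 6 := ∑ k, u k * v k

lemma ip_add_left (u u' v : ι → ZMod 6) : ip (u + u') v = ip u v + ip u' v := by
  simp [ip, add_mul, Finset.sum_add_distrib]

lemma ip_smul_left (c : ZMod 6) (u v : ι → ZMod 6) : ip (c • u) v = c * ip u v := by
  simp [ip, Finset.mul_sum, mul_assoc]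

lemma ip_sub_right (u v v' : ι → ZMod 6) : ip u (v - v') = ip u v - ip u v' := by
  simp [ip, mul_sub, Finset.sum_sub_distrib]

lemma ip_smul_right (c : ZMod 6) (u v : ι → ZMod 6) : ip u (c • v) = c * ip u v := by
  simp only [ip, Pi.smul_apply, smul_eq_mul, Finset.mul_sum]
  refine Finset.sum_congr rfl fun k _ => ?_
  ring

lemma ip_sum_right {κ : Type} (s : Finset κ) (u : ι → ZMod 6) (v : κ → ι → ZMod 6) :
    ip u (∑ j ∈ s, v j) = ∑ j ∈ s, ip u (v j) := by
  simp only [ip, Finset.sum_apply, Finset.mul_sum]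
  rw [Finset.sum_comm]

/-- Alice's map; `D` is her row. -/
def aliceMap (v : Y → ι → ZMod 6) (D : Y → Bool) (r : Msg ι) : ZMod 6 × (ι → ZMod 6) :=
  (r.2.2.1 + ∑ j, (if D j then g (lam r.2.1) (ip r.1 (v j)) else 0),
    r.2.2.2 - ∑ j, (if D j then g (lam r.2.1) (ip r.1 (v j)) else 0) • v j)

/-- Bob's map; `i` is his column. -/
def bobMap (u : Y → ι → ZMod 6) (i : Y) (r : Msg ι) : (ι → ZMod 6) × ZMod 6 :=
  (r.1 - lam r.2.1 • u i, r.2.2.1 + ip (u i) r.2.2.2 + tau r.2.1)

/-- the coefficient of `j` as seen from `c` and `z` -/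
def coef (v : Y → ι → ZMod 6) (u : Y → ι → ZMod 6) (D : Y → Bool) (i : Y) (c : ι → ZMod 6)
    (l : ZMod 6) (j : Y) : ZMod 6 :=
  if D j then (1 - ip (u i) (v j)) * g l (ip c (v j) + l * ip (u i) (v j)) else 0

lemma bob_of_alice (v u : Y → ι → ZMod 6) (D : Y → Bool) (i : Y) (r : Msg ι) :
    (bobMap u i r).2 = (aliceMap v D r).1 + ip (u i) (aliceMap v D r).2 + tau r.2.1 -
      ∑ j, coef v u D i (bobMap u i r).1 (lam r.2.1) j := by
  obtain ⟨w, z, p1, p2⟩ := r
  simp only [bobMap, aliceMap]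
  rw [ip_sub_right, ip_sum_right]
  simp only [ip_smul_right]
  have hw : ∀ j, ip w (v j) = ip (w - lam z • u i) (v j) + lam z * ip (u i) (v j) := by
    intro j
    rw [← ip_smul_left, ← ip_add_left]
    simp
  have hc : ∀ j, coef v u D i (w - lam z • u i) (lam z) j =
      (if D j then g (lam z) (ip w (v j)) else 0) -
      (if D j then g (lam z) (ip w (v j)) else 0) * ip (u i) (v j) := by
    intro j
    unfold coef
    rw [← hw j]
    split_ifs <;> ring
  simp only [hc, Finset.sum_sub_distrib]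
  ring

variable [DecidableEq Y]

/-- the part independent of `z` -/
def rest (v u : Y → ι → ZMod 6) (D : Y → Bool) (i : Y) (c : ι → ZMod 6) : ZMod 6 :=
  ∑ j ∈ univ.erase i, if D j then (1 - ip (u i) (v j)) * g 0 (ip c (v j)) else 0

lemma sum_coef (v u : Y → ι → ZMod 6) (D : Y → Bool) (i : Y) (c : ι → ZMod 6) (l : ZMod 6)
    (hd : ip (u i) (v i) = 0)
    (ho : ∀ j, j ≠ i → ip (u i) (v j) = 1 ∨ ip (u i) (v j) = 3 ∨ ip (u i) (v j) = 4) :
    ∑ j, coef v u D i c l j = (if D i then g l (ip c (v i)) else 0) + rest v u D i c := by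
  rw [← Finset.add_sum_erase _ _ (Finset.mem_univ i)]
  congr 1
  · unfold coef
    rw [hd]
    simp
  · unfold rest
    refine Finset.sum_congr rfl fun j hj => ?_
    unfold coef
    split_ifs with h
    · exact gadget_const _ (ho j (Finset.ne_of_mem_erase hj)) l _
    · rfl

lemma inj_of_one (v u : Y → ι → ZMod 6) (D : Y → Bool) (i : Y)
    (hd : ip (u i) (v i) = 0)
    (ho : ∀ j, j ≠ i → ip (u i) (v j) = 1 ∨ ip (u i) (v j) = 3 ∨ ip (u i) (v j) = 4)
    (hD : D i = true) :
    Function.Injective (fun r : Msg ι => (aliceMap v D r, bobMap u i r)) := by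
  intro r r' hr
  simp only [Prod.mk.injEq] at hr
  obtain ⟨ha, hb⟩ := hr
  have h1 := bob_of_alice v u D i r
  have h2 := bob_of_alice v u D i r'
  rw [sum_coef v u D i _ _ hd ho, hD] at h1 h2
  rw [ha, hb] at h1
  rw [h2] at h1
  have hz : r.2.1 = r'.2.1 := by
    refine gadget_inj (ip (bobMap u i r').1 (v i)) _ _ ?_
    simp only [if_true] at h1
    linear_combination -h1
  have hw : r.1 = r'.1 := by
    have := congrArg Prod.fst hb
    simp only [bobMap, hz] at this
    exact sub_left_injective this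
  obtain ⟨w, z, p1, p2⟩ := r
  obtain ⟨w', z', p1', p2'⟩ := r'
  simp only at hz hw
  subst hz hw
  simp only [aliceMap, Prod.mk.injEq] at ha
  obtain ⟨ha1, ha2⟩ := ha
  have e1 : p1 = p1' := add_right_cancel ha1
  have e2 : p2 = p2' := sub_left_injective ha2
  rw [e1, e2]

lemma card_of_zero (v u : Y → ι → ZMod 6) (D : Y → Bool) (i : Y)
    (hd : ip (u i) (v i) = 0)
    (ho : ∀ j, j ≠ i → ip (u i) (v j) = 1 ∨ ip (u i) (v j) = 3 ∨ ip (u i) (v j) = 4)
    (hD : D i = false) :
    3 * Nat.card {c : (ZMod 6 × (ι → ZMod 6)) × ((ι → ZMod 6) × ZMod 6) //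
        ∃ r : Msg ι, (aliceMap v D r, bobMap u i r) = c} ≤
      2 * Nat.card ((ZMod 6 × (ι → ZMod 6)) × ((ι → ZMod 6) × ZMod 6)) := by
  classical
  let F : {c : (ZMod 6 × (ι → ZMod 6)) × ((ι → ZMod 6) × ZMod 6) //
        ∃ r : Msg ι, (aliceMap v D r, bobMap u i r) = c} →
      ((ZMod 6 × (ι → ZMod 6)) × (ι → ZMod 6)) × ({0, 3, 4, 5} : Finset (ZMod 6)) :=
    fun c => ((c.1.1, c.1.2.1), ⟨c.1.2.2 - (c.1.1.1 + ip (u i) c.1.1.2) + rest v u D i c.1.2.1, by
      obtain ⟨r, hr⟩ := c.2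
      have h1 := bob_of_alice v u D i r
      rw [sum_coef v u D i _ _ hd ho, hD] at h1
      rw [← hr]
      simp only
      rw [h1]
      have : ((aliceMap v D r).1 + ip (u i) (aliceMap v D r).2 + tau r.2.1 -
          ((if false = true then g (lam r.2.1) (ip (bobMap u i r).1 (v i)) else 0) +
          rest v u D i (bobMap u i r).1)) - ((aliceMap v D r).1 + ip (u i) (aliceMap v D r).2) +
          rest v u D i (bobMap u i r).1 = tau r.2.1 := by
        simp only [Bool.false_eq_true, if_false]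
        ring
      rw [this]
      exact gadget_image _⟩)
  have hF : Function.Injective F := by
    rintro ⟨⟨a, c, t⟩, hc⟩ ⟨⟨a', c', t'⟩, hc'⟩ h
    simp only [F, Prod.mk.injEq, Subtype.mk.injEq] at h
    obtain ⟨⟨rfl, rfl⟩, h3⟩ := h
    have : t = t' := by linear_combination h3
    subst this
    rfl
  have hle := Nat.card_le_card_of_injective F hF
  have hN : Nat.card (((ZMod 6 × (ι → ZMod 6)) × (ι → ZMod 6)) ×
      ({0, 3, 4, 5} : Finset (ZMod 6))) =
      Nat.card ((ZMod 6 × (ι → ZMod 6)) × (ι → ZMod 6)) * 4 := by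
    rw [Nat.card_prod]
    congr 1
    rw [Nat.card_eq_fintype_card, Fintype.card_coe]
    decide
  have hM : Nat.card ((ZMod 6 × (ι → ZMod 6)) × ((ι → ZMod 6) × ZMod 6)) =
      Nat.card ((ZMod 6 × (ι → ZMod 6)) × (ι → ZMod 6)) * 6 := by
    simp only [Nat.card_prod, Nat.card_zmod]
    ring
  rw [hN] at hle
  rw [hM]
  omega

/-- A ZAM protocol from a matching vector family. -/
theorem exists_zam_of_mv {X : Type} (u v : Y → ι → ZMod 6)
    (hd : ∀ i, ip (u i) (v i) = 0)
    (ho : ∀ i j, j ≠ i → ip (u i) (v j) = 1 ∨ ip (u i) (v j) = 3 ∨ ip (u i) (v j) = 4)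
    (f : X → Y → Bool) :
    ∃ P : Protocol X Y, P.IsZAM f ∧ P.cost ≤ 12 * (Fintype.card ι + 1) := by
  classical
  refine ⟨pairProtocol (R := Msg ι) (fun x => aliceMap v (f x)) (fun i => bobMap u i),
    pairProtocol_isZAM f _ _ ?_ ?_, ?_⟩
  · intro x i hf
    have hinj := inj_of_one v u (f x) i (hd i) (ho i) hf
    refine (Fintype.bijective_iff_injective_and_card _).2 ⟨hinj, ?_⟩
    simp only [Fintype.card_prod, Fintype.card_fin, ZMod.card]
    ring
  · intro x i hf
    exact card_of_zero v u (f x) i (hd i) (ho i) hf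
  · rw [pairProtocol_cost]
    have hc : Fintype.card (Msg ι) ^ 2 = 6 ^ (4 * (Fintype.card ι + 1)) := by
      simp only [Fintype.card_prod, Fintype.card_fin, ZMod.card, Fintype.card_pi,
        Finset.prod_const, Finset.card_univ]
      ring
    rw [hc]
    apply Nat.clog_le_of_le_pow
    calc 6 ^ (4 * (Fintype.card ι + 1)) ≤ 8 ^ (4 * (Fintype.card ι + 1)) :=
          Nat.pow_le_pow_left (by norm_num) _
      _ = 2 ^ (12 * (Fintype.card ι + 1)) := by
          rw [show (8 : ℕ) = 2 ^ 3 by norm_num, ← pow_mul]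
          congr 1
          ring

end

end Zam
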