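import Pool.Agent.Zam.Gadget

/-! Matching vector families over `ZMod 6` (Barrington-Beigel-Rudich, Grolmusz). -/

namespace Zam

open Finset

/-- Lucas: `choose t (p^e - 1)` modulo `p` is the indicator of `t ≡ -1 mod p^e`. -/
lemma choose_pow_sub_one (p : ℕ) (hp : p.Prime) (e t : ℕ) :
    (t.choose (p ^ e - 1)) ≡ (if p ^ e ∣ t + 1 then 1 else 0) [MOD p] := by
  have : Fact p.Prime := ⟨hp⟩
  induction e generalizing t with
  | zero => simp [Nat.ModEq]
  | succ e ih =>
    have hp1 : 1 ≤ p := hp.one_lt.le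
    have hpe : 1 ≤ p ^ e := Nat.one_le_pow _ _ hp.pos
    have hdecomp : p ^ (e + 1) - 1 = p * (p ^ e - 1) + (p - 1) := by
      rw [pow_succ, mul_comm (p ^ e) p, Nat.mul_sub, mul_one]
      have : p ≤ p * p ^ e := Nat.le_mul_of_pos_right _ (by omega)
      omega
    have hmod : (p ^ (e + 1) - 1) % p = p - 1 := by
      rw [hdecomp, Nat.mul_add_mod, Nat.mod_eq_of_lt]
      omega
    have hdiv : (p ^ (e + 1) - 1) / p = p ^ e - 1 := by
      rw [hdecomp, Nat.mul_add_div (by omega), Nat.div_eq_of_lt (by omega), add_zero]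
    have hl := Choose.choose_modEq_choose_mod_mul_choose_div_nat (n := t) (k := p ^ (e + 1) - 1)
      (p := p)
    rw [hmod, hdiv] at hl
    refine hl.trans ?_
    have hlt : t % p < p := Nat.mod_lt _ hp.pos
    by_cases h : t % p = p - 1
    · rw [h, Nat.choose_self, one_mul]
      refine (ih (t / p)).trans ?_
      have ht : t + 1 = p * (t / p + 1) := by
        have := Nat.div_add_mod t p
        rw [h] at this
        rw [mul_add, mul_one]
        omega
      have hiff : p ^ (e + 1) ∣ t + 1 ↔ p ^ e ∣ t / p + 1 := by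
        rw [ht, pow_succ, mul_comm (p ^ e) p]
        exact Nat.mul_dvd_mul_iff_left hp.pos
      by_cases h' : p ^ e ∣ t / p + 1
      · rw [if_pos h', if_pos (hiff.2 h')]
      · rw [if_neg h', if_neg (fun hh => h' (hiff.1 hh))]
    · rw [Nat.choose_eq_zero_of_lt (by omega), zero_mul, if_neg]
      intro hd
      apply h
      have hpd : p ∣ t + 1 := (dvd_pow_self p (Nat.succ_ne_zero e)).trans hd
      have h3 : (t + 1) % p = 0 := Nat.mod_eq_zero_of_dvd hpd
      by_contra hne
      have : (t + 1) % p = t % p + 1 := by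
        rw [Nat.add_mod, Nat.mod_eq_of_lt (a := 1) hp.one_lt, Nat.mod_eq_of_lt]
        omega
      omega

lemma three_mul_cast (a b : ℕ) (h : a ≡ b [MOD 2]) : (3 : ZMod 6) * (a : ZMod 6) = 3 * b := by
  have h1 : 3 * a ≡ 3 * b [MOD 3 * 2] := Nat.ModEq.mul_left' 3 h
  have h2 := (ZMod.natCast_eq_natCast_iff (3 * a) (3 * b) 6).2 h1
  push_cast at h2
  exact h2

lemma four_mul_cast (a b : ℕ) (h : a ≡ b [MOD 3]) : (4 : ZMod 6) * (a : ZMod 6) = 4 * b := by
  have h1 : 2 * a ≡ 2 * b [MOD 2 * 3] := Nat.ModEq.mul_left' 2 h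
  have h2 := (ZMod.natCast_eq_natCast_iff (2 * a) (2 * b) 6).2 h1
  push_cast at h2
  linear_combination 2 * h2

/-- the value of the Grolmusz polynomial -/
lemma grolmusz_value (e f t : ℕ) (ht : t + 1 ≤ 2 ^ e * 3 ^ f) :
    (t + 1 = 2 ^ e * 3 ^ f → (1 : ZMod 6) - 3 * (t.choose (2 ^ e - 1) : ZMod 6) -
      4 * (t.choose (3 ^ f - 1) : ZMod 6) = 0) ∧
    (t + 1 ≠ 2 ^ e * 3 ^ f → ((1 : ZMod 6) - 3 * (t.choose (2 ^ e - 1) : ZMod 6) -
      4 * (t.choose (3 ^ f - 1) : ZMod 6) = 1 ∨ (1 : ZMod 6) - 3 * (t.choose (2 ^ e - 1) : ZMod 6) -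
      4 * (t.choose (3 ^ f - 1) : ZMod 6) = 3 ∨ (1 : ZMod 6) - 3 * (t.choose (2 ^ e - 1) : ZMod 6) -
      4 * (t.choose (3 ^ f - 1) : ZMod 6) = 4)) := by
  have h2 := three_mul_cast _ _ (choose_pow_sub_one 2 Nat.prime_two e t)
  have h3 := four_mul_cast _ _ (choose_pow_sub_one 3 Nat.prime_three f t)
  rw [h2, h3]
  constructor
  · intro h
    rw [if_pos (Dvd.intro _ h.symm), if_pos (Dvd.intro_left _ h.symm)]
    decide
  · intro h
    by_cases a : 2 ^ e ∣ t + 1
    · by_cases b : 3 ^ f ∣ t + 1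
      · exfalso
        have hcop : Nat.Coprime (2 ^ e) (3 ^ f) := Nat.Coprime.pow _ _ (by decide)
        have := Nat.le_of_dvd (Nat.succ_pos t) (hcop.mul_dvd_of_dvd_of_dvd a b)
        exact h (le_antisymm ht this)
      · rw [if_pos a, if_neg b]; decide
    · by_cases b : 3 ^ f ∣ t + 1
      · rw [if_neg a, if_pos b]; decide
      · rw [if_neg a, if_neg b]; decide

section
variable {Y : Type} (k q : ℕ) (d2 d3 : ℕ) (φ : Y → Fin k → Fin q)

/-- the graph of `φ y` -/
def gr (y : Y) : Finset (Fin k × Fin q) := univ.filter (fun p => φ y p.1 = p.2)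

/-- index set of the coordinates -/
abbrev Idx : Type := Unit ⊕ {C // C ∈ powersetCard d2 (univ : Finset (Fin k × Fin q))} ⊕
  {C // C ∈ powersetCard d3 (univ : Finset (Fin k × Fin q))}

/-- the vectors `u` -/
def uVec (y : Y) : Idx k q d2 d3 → ZMod 6
  | Sum.inl _ => 1
  | Sum.inr (Sum.inl C) => if C.1 ⊆ gr k q φ y then 1 else 0
  | Sum.inr (Sum.inr C) => if C.1 ⊆ gr k q φ y then 1 else 0

/-- the vectors `v` -/
def vVec (y : Y) : Idx k q d2 d3 → ZMod 6
  | Sum.inl _ => 1
  | Sum.inr (Sum.inl C) => if C.1 ⊆ gr k q φ y then -3 else 0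
  | Sum.inr (Sum.inr C) => if C.1 ⊆ gr k q φ y then -4 else 0

lemma sum_powersetCard (d : ℕ) (A B : Finset (Fin k × Fin q)) (c : ZMod 6) :
    ∑ C : {C // C ∈ powersetCard d (univ : Finset (Fin k × Fin q))},
      (if C.1 ⊆ A then (1 : ZMod 6) else 0) * (if C.1 ⊆ B then c else 0) =
      c * (((A ∩ B).card.choose d : ℕ) : ZMod 6) := by
  classical
  rw [Finset.sum_coe_sort (powersetCard d (univ : Finset (Fin k × Fin q)))
    (fun C => (if C ⊆ A then (1 : ZMod 6) else 0) * (if C ⊆ B then c else 0))]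
  have h1 : ∀ C : Finset (Fin k × Fin q),
      (if C ⊆ A then (1 : ZMod 6) else 0) * (if C ⊆ B then c else 0) =
      if C ⊆ A ∩ B then c else 0 := by
    intro C
    by_cases h : C ⊆ A <;> by_cases h' : C ⊆ B <;> simp [h, h', Finset.subset_inter_iff]
  simp only [h1]
  rw [← Finset.sum_filter, Finset.sum_const, nsmul_eq_mul, mul_comm]
  congr 2
  rw [← Finset.card_powersetCard]
  congr 1
  ext C
  simp only [Finset.mem_filter, Finset.mem_powersetCard, Finset.subset_univ, true_and]
  tauto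

lemma ip_uv (y y' : Y) : ip (uVec k q d2 d3 φ y) (vVec k q d2 d3 φ y') =
    1 - 3 * (((gr k q φ y ∩ gr k q φ y').card.choose d2 : ℕ) : ZMod 6) -
      4 * (((gr k q φ y ∩ gr k q φ y').card.choose d3 : ℕ) : ZMod 6) := by
  unfold ip
  rw [Fintype.sum_sum_type, Fintype.sum_sum_type]
  have h2 := sum_powersetCard k q d2 (gr k q φ y) (gr k q φ y') (-3)
  have h3 := sum_powersetCard k q d3 (gr k q φ y) (gr k q φ y') (-4)
  simp only [uVec, vVec]
  rw [h2, h3]
  simp
  ring

lemma card_inter (y y' : Y) : (gr k q φ y ∩ gr k q φ y').card =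
    (univ.filter (fun a => φ y a = φ y' a)).card := by
  classical
  refine Finset.card_bij' (fun p _ => p.1) (fun a _ => (a, φ y a)) ?_ ?_ ?_ ?_
  · intro p hp
    simp only [gr, Finset.mem_inter, Finset.mem_filter, Finset.mem_univ, true_and] at hp ⊢
    rw [hp.1, hp.2]
  · intro a ha
    simp only [gr, Finset.mem_inter, Finset.mem_filter, Finset.mem_univ, true_and] at ha ⊢
    exact ha.symm
  · intro p hp
    simp only [gr, Finset.mem_inter, Finset.mem_filter, Finset.mem_univ, true_and] at hp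
    ext
    · rfl
    · simp [hp.1]
  · intro a _
    rfl

lemma card_inter_le (y y' : Y) : (gr k q φ y ∩ gr k q φ y').card ≤ k := by
  rw [card_inter]
  exact (Finset.card_le_univ _).trans (by simp)

lemma card_inter_self (y : Y) : (gr k q φ y ∩ gr k q φ y).card = k := by
  rw [card_inter]
  simp

lemma card_inter_ne (hφ : Function.Injective φ) (y y' : Y) (h : y ≠ y') :
    (gr k q φ y ∩ gr k q φ y').card ≠ k := by
  rw [card_inter]
  intro hc
  apply h
  apply hφ
  have : (univ.filter (fun a => φ y a = φ y' a)) = univ := by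
    apply Finset.eq_univ_of_card
    rw [hc]; simp
  funext a
  have ha : a ∈ univ.filter (fun a => φ y a = φ y' a) := by rw [this]; exact Finset.mem_univ a
  exact (Finset.mem_filter.1 ha).2

lemma card_idx : Fintype.card (Idx k q d2 d3) = 1 + ((k * q).choose d2 + (k * q).choose d3) := by
  simp only [Fintype.card_sum, Fintype.card_unit, Fintype.card_coe, Finset.card_powersetCard,
    Finset.card_univ, Fintype.card_prod, Fintype.card_fin]

end

/-- ZAM protocols from the Grolmusz family: `Y` embeds into the functions `[k] → [q]` with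
`k + 1 = 2^e 3^f`. -/
theorem exists_zam_param {X Y : Type} [Fintype Y] (k q e f : ℕ) (hk : k + 1 = 2 ^ e * 3 ^ f)
    (φ : Y → Fin k → Fin q) (hφ : Function.Injective φ) (F : X → Y → Bool) :
    ∃ P : Protocol X Y, P.IsZAM F ∧
      P.cost ≤ 12 * ((k * q).choose (2 ^ e - 1) + (k * q).choose (3 ^ f - 1) + 2) := by
  classical
  obtain ⟨P, hP, hc⟩ := exists_zam_of_mv (uVec k q (2 ^ e - 1) (3 ^ f - 1) φ)
    (vVec k q (2 ^ e - 1) (3 ^ f - 1) φ) (by
      intro i
      rw [ip_uv, card_inter_self]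
      exact (grolmusz_value e f k hk.le).1 hk) (by
      intro i j hij
      rw [ip_uv]
      have hle := card_inter_le k q φ i j
      have hne := card_inter_ne k q φ hφ i j hij.symm
      exact (grolmusz_value e f _ (by omega)).2 (by omega)) F
  refine ⟨P, hP, hc.trans ?_⟩
  rw [card_idx]
  omega

end Zam
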